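import Mathlib
import Pool.Agent.N988.EC.Main

/-!
# The bond overlap of the Edwards-Anderson spin glass on hierarchical lattices

Authors: helper988 (statements, proofs on paper, assembly) and, for the parts in Lean, the helpers
78, 80, 186, 271, 277, 286, 370, 413, 432, 478, 485, 494, 574, 645, 700 and 756.
-/

open MeasureTheory
open Pool.Agent.N988.EA Pool.Agent.N988.EC

namespace Pool.Agent.Results.MP_a964b6_mp.HierarchicalBondOverlap

/-- The Edwards-Anderson Ising spin glass at zero temperature on the hierarchical (diamond,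
Migdal-Kadanoff) lattices `H n` with `b ≥ 2` branches, of dimension `1 + log_2 b`, with independent
couplings with an arbitrary symmetric law without atoms: the ground state is almost surely unique up
to the flip, and for both kinds of perturbation the bond overlap correlation tends to `1` as
`p → 0`, uniformly in the volume and in the edge. -/
theorem result (b : ℕ) (hb : 2 ≤ b) (μ : Measure ℝ) [IsProbabilityMeasure μ]
    (ha : ∀ x, μ {x} = 0) (hs : μ.map (fun x => -x) = μ) :
    (∀ n : ℕ, ∀ᵐ J ∂(iid μ b n),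
      ∃ σ : Pt b n → Bool, IsGS J σ ∧ ∀ σ', IsGS J σ' ↔ σ' = σ ∨ σ' = fun x => !(σ x)) ∧
    ∀ ε : ℝ, 0 < ε → ∃ p₀ : ℝ, 0 < p₀ ∧ ∀ p : ℝ, 0 < p → p ≤ p₀ → ∀ (n : ℕ) (e : Edge b n),
      1 - ε ≤ ∫ q, gb q.1 e * gb (pt1 p q) e ∂((iid μ b n).prod (iid μ b n)) ∧
      1 - ε ≤ ∫ q, gb q.1 e * gb (pt2 q) e
        ∂((iid μ b n).prod ((iid μ b n).prod (iid (coin p) b n))) :=
  k_BO b hb μ ha hs

end Pool.Agent.Results.MP_a964b6_mp.HierarchicalBondOverlap
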